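import Mathlib
import Pool.Agent.V11190.Bicycle4

/-!
# The bicycle monodromy of a strictly convex front track: hyperbolic, then elliptic

The analytic transition theorem `Pool.Agent.V11190.Bicycle.transition` of the starting files, which no
result uses, is applied to curves of both orientations (time reversal).
-/

open Set Filter Topology
open Pool.Agent.V11190.Bicycle

namespace Pool.Agent.Results.MP_08099c_gt.Transition

/-- `θ` is a solution on `[0, T]` of the no-skid equation `ℓ θ' = Γ' · (-sin θ, cos θ)` for the front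
track `Γ` and the bicycle length `ℓ`. -/
def IsSteering (Γ : ℝ → ℂ) (T l : ℝ) (θ : ℝ → ℝ) : Prop :=
  ∀ t ∈ Icc 0 T, HasDerivWithinAt θ
    ((-(deriv Γ t).re * Real.sin (θ t) + (deriv Γ t).im * Real.cos (θ t)) / l) (Icc 0 T) t

/-- `M ∈ SL(2, ℝ)` is a lift of the monodromy `θ(0) ↦ θ(T)`; the circle of the angles `θ` is identified
with the real projective line through `θ ↦ [cos (θ / 2) : sin (θ / 2)]`. -/
def IsLift (Γ : ℝ → ℂ) (T l : ℝ) (M : Matrix.SpecialLinearGroup (Fin 2) ℝ) : Prop :=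
  ∀ θ : ℝ → ℝ, IsSteering Γ T l θ → ∃ c : ℝ, c ≠ 0 ∧
    (M : Matrix (Fin 2) (Fin 2) ℝ).mulVec ![Real.cos (θ 0 / 2), Real.sin (θ 0 / 2)] =
      c • ![Real.cos (θ T / 2), Real.sin (θ T / 2)]

lemma steering_iff {Γ : ℝ → ℂ} {T l : ℝ} {θ : ℝ → ℝ} : IsSteering Γ T l θ ↔
    IsSol (1 / l) T (fun t => (deriv Γ t).re) (fun t => (deriv Γ t).im) θ := by
  refine forall₂_congr fun t _ => ?_
  have e : (-(deriv Γ t).re * Real.sin (θ t) + (deriv Γ t).im * Real.cos (θ t)) / l =
      1 / l * ((deriv Γ t).im * Real.cos (θ t) - (deriv Γ t).re * Real.sin (θ t)) := by ring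
  rw [e]

lemma lift_iff {Γ : ℝ → ℂ} {T l : ℝ} {M : Matrix.SpecialLinearGroup (Fin 2) ℝ} : IsLift Γ T l M ↔
    IsMonodromy (1 / l) T (fun t => (deriv Γ t).re) (fun t => (deriv Γ t).im) M := by
  constructor
  · intro h
    exact ⟨M.2, fun θ hθ => h θ (steering_iff.2 hθ)⟩
  · intro h θ hθ
    exact h.2 θ (steering_iff.1 hθ)

/-- time reversal of solutions -/
lemma sol_rev {s T : ℝ} {X' Y' θ : ℝ → ℝ} (h : IsSol s T X' Y' θ) :
    IsSol s T (fun t => -X' (T - t)) (fun t => -Y' (T - t)) (fun t => θ (T - t)) := by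
  intro t ht
  have ht' : T - t ∈ Icc 0 T := ⟨by linarith [ht.2], by linarith [ht.1]⟩
  have h1 : HasDerivWithinAt (fun u : ℝ => T - u) (-1) (Icc 0 T) t := by
    simpa using ((hasDerivWithinAt_id t (Icc 0 T)).const_sub T)
  have h2 := (h (T - t) ht').scomp t h1 (fun u hu => ⟨by linarith [hu.2], by linarith [hu.1]⟩)
  refine h2.congr_deriv ?_
  simp only [smul_eq_mul]
  ring

lemma mon_rev {s T : ℝ} {X' Y' : ℝ → ℝ} {M : Matrix (Fin 2) (Fin 2) ℝ}
    (h : IsMonodromy s T (fun t => -X' (T - t)) (fun t => -Y' (T - t)) M) :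
    IsMonodromy s T X' Y' M.adjugate := by
  refine ⟨by rw [Matrix.det_adjugate, h.1, one_pow], fun θ hθ => ?_⟩
  obtain ⟨c, hc, e⟩ := h.2 _ (sol_rev hθ)
  simp only [sub_zero, sub_self] at e
  refine ⟨c⁻¹, inv_ne_zero hc, ?_⟩
  have h1 := congrArg (fun w => M.adjugate.mulVec w) e
  simp only [Matrix.mulVec_mulVec, Matrix.adjugate_mul, h.1, one_smul, Matrix.one_mulVec,
    Matrix.mulVec_smul] at h1
  rw [h1, smul_smul, inv_mul_cancel₀ hc, one_smul]

lemma trace_adj (M : Matrix (Fin 2) (Fin 2) ℝ) : M.adjugate.trace = M.trace := by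
  rw [Matrix.adjugate_fin_two, Matrix.trace_fin_two, Matrix.trace_fin_two]
  simp [add_comm]

lemma rev_rev {T : ℝ} (X' : ℝ → ℝ) : (fun t => -(fun u => -X' (T - u)) (T - t)) = X' := by
  funext t
  simp

lemma mon_rev' {s T : ℝ} {X' Y' : ℝ → ℝ} {M : Matrix (Fin 2) (Fin 2) ℝ}
    (h : IsMonodromy s T X' Y' M) :
    IsMonodromy s T (fun t => -X' (T - t)) (fun t => -Y' (T - t)) M.adjugate := by
  apply mon_rev
  rw [rev_rev, rev_rev]
  exact h

lemma hyp_rev {s T : ℝ} {X' Y' : ℝ → ℝ}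
    (h : Hyp s T (fun t => -X' (T - t)) (fun t => -Y' (T - t))) : Hyp s T X' Y' := by
  obtain ⟨⟨M, hM⟩, h2⟩ := h
  refine ⟨⟨_, mon_rev hM⟩, fun N hN => ?_⟩
  have := h2 _ (mon_rev' hN)
  rwa [trace_adj] at this

lemma ell_rev {s T : ℝ} {X' Y' : ℝ → ℝ}
    (h : Ell s T (fun t => -X' (T - t)) (fun t => -Y' (T - t))) : Ell s T X' Y' := by
  obtain ⟨⟨M, hM⟩, h2⟩ := h
  refine ⟨⟨_, mon_rev hM⟩, fun N hN => ?_⟩
  have := h2 _ (mon_rev' hN)
  rwa [trace_adj] at this

/-- the reversed track -/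
lemma track_rev {Γ : ℝ → ℂ} {T : ℝ} {K : Set ℂ} (h : IsConvexTrack Γ T K) :
    IsConvexTrack (fun t => Γ (-t)) T K ∧
      (∀ t, deriv (fun t => Γ (-t)) t = -deriv Γ (T - t)) := by
  have hd : ∀ t, deriv (fun t => Γ (-t)) t = -deriv Γ (-t) := fun t => by
    simpa using deriv_comp_neg Γ t
  have hper : ∀ t, deriv Γ (t + T) = deriv Γ t := by
    intro t
    have h1 : (fun u => Γ (u + T)) = Γ := by ext u; exact h.periodic u
    have h2 := deriv_comp_add_const Γ T t
    rw [h1] at h2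
    exact h2.symm
  have hT := h.period_pos
  refine ⟨?_, fun t => ?_⟩
  · refine
      { period_pos := hT
        smooth := h.smooth.comp contDiff_neg
        periodic := fun t => ?_
        regular := fun t => ?_
        simple := ?_
        compact := h.compact
        strict := h.strict
        boundary := ?_ }
    · show Γ (-(t + T)) = Γ (-t)
      rw [← h.periodic (-(t + T))]
      congr 1
      ring
    · rw [hd]
      exact neg_ne_zero.2 (h.regular _)
    · have key : ∀ a, Γ (-a) = Γ (T - a) := fun a => by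
        rw [← h.periodic (-a)]
        congr 1
        ring
      intro a ha b hb hab
      change Γ (-a) = Γ (-b) at hab
      rcases eq_or_lt_of_le ha.1 with ha0 | ha0
      · rcases eq_or_lt_of_le hb.1 with hb0 | hb0
        · rw [← ha0, ← hb0]
        · exfalso
          rw [← ha0, neg_zero, key b] at hab
          have := h.simple ⟨le_rfl, hT⟩ ⟨by linarith [hb.2], by linarith⟩ hab
          linarith [hb.2]
      · rcases eq_or_lt_of_le hb.1 with hb0 | hb0
        · exfalso
          rw [← hb0, neg_zero, key a] at hab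
          have := h.simple ⟨by linarith [ha.2], by linarith⟩ ⟨le_rfl, hT⟩ hab
          linarith [ha.2]
        · rw [key a, key b] at hab
          have := h.simple ⟨by linarith [ha.2], by linarith⟩ ⟨by linarith [hb.2], by linarith⟩ hab
          linarith
    · rw [h.boundary]
      ext z
      constructor
      · rintro ⟨t, rfl⟩
        exact ⟨-t, by simp⟩
      · rintro ⟨t, rfl⟩
        exact ⟨-t, rfl⟩
  · rw [hd, ← hper (-t)]
    congr 2
    ring

lemma analytic (Γ : ℝ → ℂ) (T : ℝ) (K : Set ℂ) (hΓ : IsConvexTrack Γ T K) :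
    ∃ s0 : ℝ, 0 < s0 ∧
      (∀ s, s0 < s → Hyp s T (fun t => (deriv Γ t).re) (fun t => (deriv Γ t).im)) ∧
      (∀ s, 0 < s → s < s0 → Ell s T (fun t => (deriv Γ t).re) (fun t => (deriv Γ t).im)) := by
  rcases hΓ.oriented with ho | ho
  · obtain ⟨v, φ, φ', tr⟩ := hΓ.toTrack ho
    exact transition tr
  · obtain ⟨hr, hd⟩ := track_rev hΓ
    have ho' : PosOriented (fun t => Γ (-t)) K := by
      intro t p hp
      have h1 := ho (-t) p hp
      have h2 : deriv (fun t => Γ (-t)) t = -deriv Γ (-t) := by simpa using deriv_comp_neg Γ t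
      rw [h2]
      simp only [cr, Complex.neg_re, Complex.neg_im] at h1 ⊢
      linarith
    obtain ⟨v, φ, φ', tr⟩ := hr.toTrack ho'
    obtain ⟨s0, hs0, h1, h2⟩ := transition tr
    have e1 : (fun t => (deriv (fun t => Γ (-t)) t).re) =
        fun t => -(fun u => (deriv Γ u).re) (T - t) := by
      funext t
      rw [hd, Complex.neg_re]
    have e2 : (fun t => (deriv (fun t => Γ (-t)) t).im) =
        fun t => -(fun u => (deriv Γ u).im) (T - t) := by
      funext t
      rw [hd, Complex.neg_im]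
    rw [e1, e2] at h1 h2
    exact ⟨s0, hs0, fun s hs => hyp_rev (h1 s hs), fun s hs hs' => ell_rev (h2 s hs hs')⟩

/-- **The bicycle monodromy of a strictly convex front track is hyperbolic for all lengths below a
threshold and elliptic for all lengths above it.**  Let `Γ` be a regular simple closed curve of class
`C²` (in particular a smooth one), of period `T`, which is the boundary of a strictly convex compact
region `K`. For every length `ℓ > 0` the no-skid equation has a solution with every initial angle, and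
the monodromy has a lift to `SL(2, ℝ)`, unique up to the sign. There is `ℓ₀ > 0` such that for all
`ℓ > 0` all lifts `M` satisfy `|tr M| > 2` if `ℓ < ℓ₀`, and `|tr M| < 2` if `ℓ > ℓ₀`. -/
theorem result (Γ : ℝ → ℂ) (T : ℝ) (K : Set ℂ) (hΓ : IsConvexTrack Γ T K) :
    (∀ l : ℝ, 0 < l → (∀ a : ℝ, ∃ θ : ℝ → ℝ, θ 0 = a ∧ IsSteering Γ T l θ) ∧
      ∃ M : Matrix.SpecialLinearGroup (Fin 2) ℝ, IsLift Γ T l M ∧
        ∀ N : Matrix.SpecialLinearGroup (Fin 2) ℝ, IsLift Γ T l N → N = M ∨ N = -M) ∧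
    ∃ l₀ : ℝ, 0 < l₀ ∧ ∀ l : ℝ, 0 < l →
      ∀ M : Matrix.SpecialLinearGroup (Fin 2) ℝ, IsLift Γ T l M →
        (l < l₀ → 2 < |(M : Matrix (Fin 2) (Fin 2) ℝ).trace|) ∧
        (l₀ < l → |(M : Matrix (Fin 2) (Fin 2) ℝ).trace| < 2) := by
  have hT := hΓ.period_pos
  have cX : Continuous fun t => (deriv Γ t).re := Complex.continuous_re.comp hΓ.contDeriv
  have cY : Continuous fun t => (deriv Γ t).im := Complex.continuous_im.comp hΓ.contDeriv
  refine ⟨fun l hl => ⟨fun a => ?_, ?_⟩, ?_⟩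
  · obtain ⟨θ, h0, hθ⟩ := exists_sol hT cX cY (one_div_pos.2 hl) a
    exact ⟨θ, h0, steering_iff.2 hθ⟩
  · obtain ⟨M, hdet, hM⟩ := exists_mon (one_div_pos.2 hl) hT cX cY
    have hMon : IsMonodromy (1 / l) T (fun t => (deriv Γ t).re) (fun t => (deriv Γ t).im) M :=
      ⟨hdet, fun θ hθ => by
        obtain ⟨c, hc, h1⟩ := hM θ hθ
        exact ⟨c, hc.ne', h1⟩⟩
    refine ⟨⟨M, hdet⟩, lift_iff.2 hMon, fun N hN => ?_⟩
    rcases mon_unique (one_div_pos.2 hl) hT cX cY (lift_iff.1 hN) hMon with h | h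
    · left
      exact Subtype.ext h
    · right
      exact Subtype.ext h
  · obtain ⟨s0, hs0, h1, h2⟩ := analytic Γ T K hΓ
    refine ⟨1 / s0, one_div_pos.2 hs0, fun l hl M hM => ⟨fun hlt => ?_, fun hlt => ?_⟩⟩
    · refine (h1 (1 / l) ?_).2 _ (lift_iff.1 hM)
      rw [lt_one_div hs0 hl]
      exact hlt
    · refine (h2 (1 / l) (one_div_pos.2 hl) ?_).2 _ (lift_iff.1 hM)
      rw [one_div_lt hl hs0]
      exact hlt

end Pool.Agent.Results.MP_08099c_gt.Transition
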